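import Pool.Agent.Lib.MP_c7af3c_ag.EDGE.C2.H59.Htlr2
import Pool.Agent.Lib.MP_c7af3c_ag.EDGE.H19.Dich
import Pool.Agent.Lib.MP_c7af3c_ag.EDGE.H52.Ultra

/-!
# MP_c7af3c_ag, project EDGE, all c: the dichotomy without numerical condition (helper59)
-/

set_option autoImplicit false

namespace Pool.Agent.Edge.C2.H59

open MvPolynomial WithZero Pool.Agent.Gen Pool.Agent.Sharp Pool.Agent.Lines.H75
open Pool.Agent.Sharp.H54 Pool.Agent.Lines Pool.Agent.Lines.H19 Pool.Agent.Edge.H19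

/-! ### numerics -/

theorem tri (a : ℕ) (h : 1 ≤ a) : a * (a - 1) / 2 = (a - 1) + (a - 1) * (a - 2) / 2 := by
  obtain ⟨b, rfl⟩ := Nat.exists_eq_add_of_le h
  have e1 : 1 + b - 1 = b := by omega
  have e2 : 1 + b - 2 = b - 1 := by omega
  rw [e1, e2]
  rcases Nat.eq_zero_or_pos b with rfl | hb
  · rfl
  · obtain ⟨k, rfl⟩ : ∃ k, b = k + 1 := ⟨b - 1, by omega⟩
    have e3 : k + 1 - 1 = k := by omega
    rw [e3]
    have h1 : (1 + (k + 1)) * (k + 1) = (k + 1) * 2 + (k + 1) * k := by ring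
    rw [h1]
    omega

/-- first key estimate -/
theorem key1 (a : ℕ) : 2 * a ≤ 5 + (a - 1) * (a - 2) / 2 := by
  rcases Nat.lt_or_ge a 2 with h | h
  · interval_cases a <;> norm_num
  · obtain ⟨b, rfl⟩ := Nat.exists_eq_add_of_le h
    have e1 : 2 + b - 1 = b + 1 := by omega
    have e2 : 2 + b - 2 = b := by omega
    rw [e1, e2]
    have h7 : 2 * (2 * (2 + b)) ≤ 2 * 5 + (b + 1) * b := by
      rcases Nat.lt_or_ge b 3 with h | h
      · interval_cases b <;> norm_num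
      · nlinarith
    omega

/-- second key estimate -/
theorem key2 (a : ℕ) : a ≤ 2 + (a - 1) * (a - 2) / 2 := by
  rcases Nat.lt_or_ge a 2 with h | h
  · interval_cases a <;> norm_num
  · obtain ⟨b, rfl⟩ := Nat.exists_eq_add_of_le h
    have e1 : 2 + b - 1 = b + 1 := by omega
    have e2 : 2 + b - 2 = b := by omega
    rw [e1, e2]
    have h7 : 2 * (2 + b) ≤ 2 * 2 + (b + 1) * b := by
      nlinarith [Nat.zero_le b, Nat.le_mul_self b]
    omega

theorem tri2 (a : ℕ) (h : 1 ≤ a) : a * (a + 1) / 2 = a + a * (a - 1) / 2 := by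
  obtain ⟨b, rfl⟩ := Nat.exists_eq_add_of_le h
  have e1 : 1 + b - 1 = b := by omega
  rw [e1]
  have h1 : (1 + b) * (1 + b + 1) = (1 + b) * 2 + (1 + b) * b := by ring
  rw [h1]
  omega

section num

variable {c : ℕ} (d : Fin c → ℕ)

theorem sum_tri (hd : ∀ m, 1 ≤ d m) : ∑ m, d m * (d m - 1) / 2 =
    ∑ m, (d m - 1) + ∑ m, (d m - 1) * (d m - 2) / 2 := by
  rw [← Finset.sum_add_distrib]
  exact Finset.sum_congr rfl fun m _ => tri _ (hd m)

theorem sum_tri2 (hd : ∀ m, 1 ≤ d m) : ∑ m, d m * (d m + 1) / 2 =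
    ∑ m, d m + ∑ m, d m * (d m - 1) / 2 := by
  rw [← Finset.sum_add_distrib]
  exact Finset.sum_congr rfl fun m _ => tri2 _ (hd m)

theorem sum_pred (hd : ∀ m, 1 ≤ d m) : ∑ m, (d m - 1) + c = ∑ m, d m := by
  have h : ∑ m, (d m - 1) + ∑ _m : Fin c, 1 = ∑ m, d m := by
    rw [← Finset.sum_add_distrib]
    refine Finset.sum_congr rfl fun m _ => ?_
    have := hd m
    omega
  simpa using h

/-- the two largest weights, `e = 1` -/
theorem pair_le (hd : ∀ m, 1 ≤ d m) (h4 : ∑ m, d m = 4 + c) (q q' : Lines.H26.Mi d)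
    (hq : q ≠ q') : (q.2 : ℕ) + q'.2 ≤ ∑ m, d m * (d m - 1) / 2 := by
  classical
  obtain ⟨m, i⟩ := q
  obtain ⟨m', i'⟩ := q'
  have h5 : ∑ m, (d m - 1) = 4 := by
    have := sum_pred d hd
    omega
  have hi := i.2
  have hi' := i'.2
  have hm := hd m
  have hm' := hd m'
  rw [sum_tri d hd, h5]
  by_cases h : m = m'
  · subst h
    have hii : (i : ℕ) ≠ i' := by
      intro h
      apply hq
      rw [Fin.ext h]
    have h6 : (d m - 1) * (d m - 2) / 2 ≤ ∑ m, (d m - 1) * (d m - 2) / 2 :=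
      Finset.single_le_sum (f := fun m => (d m - 1) * (d m - 2) / 2)
        (fun _ _ => Nat.zero_le _) (Finset.mem_univ m)
    have h7 := key1 (d m)
    simp only
    omega
  · have h6 : (d m - 1) * (d m - 2) / 2 + (d m' - 1) * (d m' - 2) / 2 ≤
        ∑ m, (d m - 1) * (d m - 2) / 2 := by
      rw [← Finset.sum_pair (f := fun m => (d m - 1) * (d m - 2) / 2) h]
      exact Finset.sum_le_sum_of_subset (Finset.subset_univ _)
    have h7 := key2 (d m)
    have h8 := key2 (d m')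
    simp only
    omega

/-- the reversed index -/
def rv (q : Lines.H26.Mi d) : Lines.H26.Mi d := ⟨q.1, ⟨d q.1 - q.2, by omega⟩⟩

theorem rv_inj : Function.Injective (rv d) := by
  rintro ⟨m, i⟩ ⟨m', i'⟩ h
  unfold rv at h
  simp only [Sigma.mk.injEq] at h
  obtain ⟨rfl, h⟩ := h
  have h2 := congrArg Fin.val (eq_of_heq h)
  simp only at h2
  have hi := i.2
  have hi' := i'.2
  have : i = i' := Fin.ext (by omega)
  rw [this]

theorem wt_one (hd : ∀ m, 1 ≤ d m) (h4 : ∑ m, d m = 4 + c)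
    (T : Finset (Lines.H26.Mi d)) (hT : T.card = 2) :
    ∑ q ∈ T, (q.2 : ℕ) ≤ ∑ m, d m * (d m - 1) / 2 ∧
      ∑ q ∈ T, (d q.1 - q.2) ≤ ∑ m, d m * (d m - 1) / 2 := by
  classical
  obtain ⟨q, q', hqq, rfl⟩ := Finset.card_eq_two.1 hT
  rw [Finset.sum_pair hqq, Finset.sum_pair hqq]
  refine ⟨pair_le d hd h4 q q' hqq, ?_⟩
  exact pair_le d hd h4 (rv d q) (rv d q') (fun h => hqq (rv_inj d h))

/-- the old numerical condition holds for `e ≥ 2` -/
theorem hnum_two {n e : ℕ} (hd : ∀ m, 1 ≤ d m) (he : 2 ≤ e) (hn : n = 2 * e + c)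
    (h1 : 2 * n + 1 = c + ∑ m, d m + e) :
    ∃ M : ℕ, (∀ m, d m ≤ M) ∧ ∀ q r, q + 1 ≤ e → r + 2 * n = c + ∑ m, d m + q + 2 →
      n + 2 + q + r * M ≤ ∑ m, d m * (d m + 1) / 2 := by
  classical
  have hs : ∑ m, d m = 3 * e + 1 + c := by omega
  have hc : 0 < c := by
    rcases Nat.eq_zero_or_pos c with rfl | h
    · simp at hs
    · exact h
  have : Nonempty (Fin c) := ⟨⟨0, hc⟩⟩
  obtain ⟨m0, -, hm0⟩ := Finset.exists_max_image Finset.univ d Finset.univ_nonempty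
  refine ⟨d m0, fun m => hm0 m (Finset.mem_univ m), fun q r hq hr => ?_⟩
  have h5 := sum_pred d hd
  have h6 : (d m0 - 1) * (d m0 - 2) / 2 ≤ ∑ m, (d m - 1) * (d m - 2) / 2 :=
    Finset.single_le_sum (f := fun m => (d m - 1) * (d m - 2) / 2)
      (fun _ _ => Nat.zero_le _) (Finset.mem_univ m0)
  rw [sum_tri2 d hd, sum_tri d hd]
  have hr2 : r ≤ 2 := by omega
  have key : ∀ a : ℕ, 2 * a + 2 ≤ 9 + (a - 1) * (a - 2) / 2 := by
    intro a
    rcases Nat.lt_or_ge a 2 with h | h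
    · interval_cases a <;> norm_num
    · obtain ⟨b, rfl⟩ := Nat.exists_eq_add_of_le h
      have e1 : 2 + b - 1 = b + 1 := by omega
      have e2 : 2 + b - 2 = b := by omega
      rw [e1, e2]
      have h7 : 2 * (2 * (2 + b) + 2) ≤ 2 * 9 + (b + 1) * b := by
        rcases Nat.lt_or_ge b 3 with h | h
        · interval_cases b <;> norm_num
        · nlinarith
      omega
  have h7 := key (d m0)
  have h8 : r * d m0 ≤ 2 * d m0 := Nat.mul_le_mul_right _ hr2
  have h9 : r * d m0 + r ≤ 2 * d m0 + 2 := by omega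
  omega

end num

/-- the dichotomy from a bound for lines -/
theorem dich_gen (n c e : ℕ) (d : Fin c → ℕ) (he : 1 ≤ e)
    (h1 : 2 * n + 1 = c + ∑ m, d m + e) (h2 : n = 2 * e + c)
    (hln : ∀ (L : Type) [Field L] [CharZero L] (D : DSys L n c d) (x y : Fin (n + 1) → L),
      LinearIndependent L ![x, y] → ∀ q, Module.finrank L (SL D x y) = 4 + q → q + 1 ≤ e →
      ∀ (S : PlaceSys L), S.IsProd → ∀ (B : S.V → ℕ), BD S D B →
      hL S x y ≤ (4 * n + 2) * tot S B)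
    (ε : (Unit ⊕ (Fin e ⊕ Fin e)) ⊕ Fin c ≃ Fin (n + 1)) :
    ∃ C : ℕ, ∀ (L : Type) [Field L] [CharZero L] (D : DSys L n c d), Lines.Comm D →
    ∀ (x : Fin (n + 1) → L) (j0 : Fin (n + 1)), x j0 = 1 → (∀ m, eval x (D.F m) = 0) →
    NoLine D x → ∀ S : PlaceSys L, S.IsProd → ∀ B : S.V → ℕ, BD S D B →
    S.ht x ≤ C * tot S B ∨ (W0 D x ∧ ∃ (a a' : Fin e → TI n c d) (i i' : Fin e → Fin (n + 1)),
      Edge.TT D x j0 ε (fun j => mu L (a j) + mu L (a' j)) i i' ≠ 0) := by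
  refine ⟨((∑ m, d m) + 1) * (4 * n + 2) + 1, ?_⟩
  intro L _ _ D hcomm x j0 hj0 h0 hno S hS B hB
  have htn := tot_nonneg S B
  have hbig : (2 * n + 2 : ℤ) * tot S B ≤
      ((∑ m, d m : ℕ) + 1) * (4 * n + 2) * tot S B + tot S B := by
    have k1 : (2 * n + 2 : ℤ) ≤ ((∑ m, d m : ℕ) + 1) * (4 * n + 2) + 1 := by
      have : (0 : ℤ) ≤ ((∑ m, d m : ℕ) : ℤ) := by positivity
      have : (0 : ℤ) ≤ (n : ℤ) := by positivity
      have h4 : (1 : ℤ) ≤ n := by
        have : 1 ≤ n := by omega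
        exact_mod_cast this
      nlinarith
    have := mul_le_mul_of_nonneg_right k1 htn
    linarith
  -- a line of bounded height
  have hline : ∀ y, LinearIndependent L ![x, y] → hL S x y ≤ (4 * n + 2) * tot S B →
      S.ht x ≤ ((∑ m, d m : ℕ) + 1) * (4 * n + 2) * tot S B + tot S B := by
    intro y hxy hL1
    obtain ⟨m, hm⟩ := hno y hxy
    have hroot := root S hS D B hB hxy hj0 m (h0 m) hm
    have hdm : ((d m : ℕ) : ℤ) ≤ ((∑ m, d m : ℕ) : ℤ) := by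
      exact_mod_cast Finset.single_le_sum (f := d) (fun _ _ => Nat.zero_le _)
        (Finset.mem_univ m)
    have hnn := hL_nonneg x y S hS hxy
    have k2 : ((d m : ℤ) + 1) * hL S x y ≤
        (((∑ m, d m : ℕ) : ℤ) + 1) * ((4 * n + 2) * tot S B) := by
      calc ((d m : ℤ) + 1) * hL S x y ≤ (((∑ m, d m : ℕ) : ℤ) + 1) * hL S x y :=
            mul_le_mul_of_nonneg_right (by linarith) hnn
        _ ≤ _ := mul_le_mul_of_nonneg_left hL1 (by positivity)
    refine hroot.trans ?_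
    rw [mul_assoc]
    linarith
  have hconv : ((∑ m, d m : ℕ) + 1) * (4 * n + 2) * tot S B + tot S B =
      ((((∑ m, d m) + 1) * (4 * n + 2) + 1 : ℕ) : ℤ) * tot S B := by
    push_cast
    ring
  rcases badl3 (D := D) hj0 h0 e he (by omega) (by omega) S hS B hB with
    h | ⟨y, hxy, hLy⟩ | ⟨y, hxy, -, hE⟩ | ⟨hW, A, i, i', hA, hli⟩
  · left
    rw [← hconv]
    exact h.trans hbig
  · left
    rw [← hconv]
    refine hline y hxy (hLy.trans (mul_le_mul_of_nonneg_right ?_ htn))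
    have : (0 : ℤ) ≤ (n : ℤ) := by positivity
    linarith
  · left
    rw [← hconv]
    have hSL := H75.lvar L n c d D hcomm x y hxy h0 (e - 1) (by omega) (by omega)
    have h4 := four L n c d D x y hxy
    obtain ⟨q, hq⟩ := Nat.exists_eq_add_of_le h4
    exact hline y hxy (hln L D x y hxy q hq (by omega) S hS B hB)
  · right
    obtain ⟨a, a', h⟩ := refine_mu D x j0 ε i i' A (fun j => (hA j).1)
      (TT_ne_zero D x j0 hj0 h0 ε A hA i i' hli)
    exact ⟨hW, a, a', i, i', h⟩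

/-- the dichotomy, no numerical condition -/
theorem dichAll (n c e : ℕ) (d : Fin c → ℕ) (he : 1 ≤ e) (hd : ∀ m, 1 ≤ d m)
    (h1 : 2 * n + 1 = c + ∑ m, d m + e) (h2 : n = 2 * e + c)
    (ε : (Unit ⊕ (Fin e ⊕ Fin e)) ⊕ Fin c ≃ Fin (n + 1)) :
    ∃ C : ℕ, ∀ (L : Type) [Field L] [CharZero L] (D : DSys L n c d), Lines.Comm D →
    ∀ (x : Fin (n + 1) → L) (j0 : Fin (n + 1)), x j0 = 1 → (∀ m, eval x (D.F m) = 0) →
    NoLine D x → ∀ S : PlaceSys L, S.IsProd → ∀ B : S.V → ℕ, BD S D B →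
    S.ht x ≤ C * tot S B ∨ (W0 D x ∧ ∃ (a a' : Fin e → TI n c d) (i i' : Fin e → Fin (n + 1)),
      Edge.TT D x j0 ε (fun j => mu L (a j) + mu L (a' j)) i i' ≠ 0) := by
  rcases Nat.lt_or_ge e 2 with h | h
  · have he1 : e = 1 := by omega
    subst he1
    refine dich_gen n c 1 d he h1 h2 (fun L _ _ D x y hxy q hq hq1 S hS B hB => ?_) ε
    refine htlr2 D x y hxy q hq (by omega) (fun r hr => ?_) S hS B hB
    have hr2 : r = 2 := by omega
    have h4 : ∑ m, d m = 4 + c := by omega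
    subst hr2
    refine ⟨∑ m, d m * (d m - 1) / 2, fun T hT => wt_one d hd h4 T hT, ?_⟩
    rw [sum_tri2 d hd]
    omega
  · exact dich n c e d he hd h1 h2 (hnum_two d hd h h2 h1) ε

/-- ULTRA without numerical condition -/
theorem ultraAll (hT : TauStatement) (hSb : SblStatement) (n c e : ℕ) (d : Fin c → ℕ)
    (j0 : Fin (n + 1)) (he1 : 1 ≤ e) (hd : ∀ m, 1 ≤ d m)
    (hnum : 2 * n + 1 = c + ∑ m, d m + e) (hn : n = 2 * e + c)
    (ε : (Unit ⊕ (Fin e ⊕ Fin e)) ⊕ Fin c ≃ Fin (n + 1)) (hHB : ¬ HBE n c d j0) :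
    ∃ (Ω : Type) (_ : Field Ω) (_ : CharZero Ω) (k : Subfield Ω) (D : DSys Ω n c d)
      (x : Fin (n + 1) → Ω), EdgeP k D x j0 e ε := by
  obtain ⟨C, hC⟩ := dichAll n c e d he1 hd hnum hn ε
  obtain ⟨E⟩ : Nonempty (∀ A, H52.CE n c d j0 A) := ⟨fun A => (H52.exists_CE hHB A).some⟩
  let iL : ∀ ν, Field ((fun ν => (E ν).L) ν) := fun ν => (E ν).fld
  have iC : ∀ ν, CharZero ((fun ν => (E ν).L) ν) := fun ν => (E ν).chz
  refine ⟨H52.Om (fun ν => (E ν).L), inferInstance, inferInstance, _, _, _,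
    H52.ultra_aux hT hSb j0 hnum hn ε (L := fun ν => (E ν).L) (fun ν => (E ν).D)
      (fun j ν => (E ν).x j) (fun ν => (E ν).S) (fun ν => (E ν).B) (fun ν => (E ν).hS)
      (fun ν => (E ν).hB) (fun ν => (E ν).hj0) (fun ν => (E ν).h0) (fun ν => (E ν).hno)
      (fun ν => (E ν).lt) ?_⟩
  filter_upwards [H52.uf_ge C] with ν hν
  rcases @hC (E ν).L (E ν).fld (E ν).chz (E ν).D (E ν).comm (E ν).x j0 (E ν).hj0 (E ν).h0
    (E ν).hno (E ν).S (E ν).hS (E ν).B (E ν).hB with h | h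
  · exfalso
    have h1 : (C : ℤ) * @tot _ (E ν).fld (E ν).S (E ν).B ≤
        (ν : ℤ) * @tot _ (E ν).fld (E ν).S (E ν).B :=
      mul_le_mul_of_nonneg_right (by exact_mod_cast hν) (@H52.tot_nn _ (E ν).fld _ _)
    have h2 := (E ν).lt
    exact absurd (h2.trans_le (h.trans h1)) (lt_irrefl _)
  · exact h

end Pool.Agent.Edge.C2.H59
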