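import Pool.Agent.Lib.MP_c7af3c_ag.EDGE.C2.H59.Nofc
import Pool.Agent.Lib.MP_c7af3c_ag.EDGE.H9.Bezc
import Pool.Agent.Lib.MP_c7af3c_ag.EDGE.H19.Asm
import Pool.Agent.Lib.MP_c7af3c_ag.EDGE.H53.IfaceC

/-!
# MP_c7af3c_ag, project EDGE, all c: module NQ (helper59)
-/

set_option autoImplicit false

namespace Pool.Agent.Edge.C2.H59

open MvPolynomial WithZero Pool.Agent.Gen Pool.Agent.Sharp Pool.Agent.Lines.H75 Pool.Agent.Edge
  Pool.Agent.Edge.H19

/-- forms divisible by a form of larger degree are zero -/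
theorem zero_of_dvd {Ω : Type} [Field Ω] {g q : MvPolynomial (Fin 3) Ω} {δ r : ℕ}
    (hg : g.IsHomogeneous δ) (hg0 : g ≠ 0) (hq : q.IsHomogeneous r) (h : g ∣ q) (hlt : r < δ) :
    q = 0 := by
  by_contra hq0
  obtain ⟨G, rfl⟩ := h
  have hG : G ≠ 0 := fun h => hq0 (by rw [h, mul_zero])
  have h1 : g.totalDegree = δ := hg.totalDegree hg0
  have h2 : (g * G).totalDegree = r := hq.totalDegree hq0
  rw [totalDegree_mul_of_isDomain hg0 hG] at h2
  omega

/-- Module NQ. -/
theorem nq : H53.NqStatement := by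
  intro Ω _ _ k n c e d D x j0 ε t P he hn hd1 hd hE hP
  classical
  set y : Fin 3 → Ω := fun i => x (t i) with hy
  have hxP : (fun f => ∑ i, P i f * y i) = x := funext fun f => (hP.xP f).symm
  have hy0 : y 0 = 1 := by rw [hy]; simp only [hP.t0]; exact hE.hj0
  have hfh : ∀ m, (resP P (D.F m)).IsHomogeneous (d m) := fun m => resP_hom P (D.hom m)
  have hfk : ∀ m I, coeff I (resP P (D.F m)) ∈ k := fun m =>
    resP_mem P k hP.Pk fun I => hE.kF m I
  have hfy : ∀ m, eval y (resP P (D.F m)) = 0 := fun m => by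
    rw [eval_resP, hxP]
    exact hE.h0 m
  -- one restriction is not zero
  have hne : ∃ m, resP P (D.F m) ≠ 0 := by
    by_contra hcon
    push Not at hcon
    have h1 := nofc Ω n c e d D t P he hn hd hP.inj hP.Pt (X 0 ^ 2) 2 (isHomogeneous_X_pow 0 2)
      (pow_ne_zero _ (X_ne_zero _)) le_rfl (fun m => by rw [hcon m]; exact dvd_zero _)
    omega
  obtain ⟨m0, hm0⟩ := hne
  obtain ⟨g, δ, hg, hg0, hδ, hdvd⟩ := H9.bezc Ω k y hE.kalg hy0 hP.xk _ _ (hfh m0) (hfk m0) hm0
    (hfy m0)
  obtain ⟨h4, m1, hm1, hz⟩ := nofc Ω n c e d D t P he hn hd hP.inj hP.Pt g δ hg hg0 hδ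
    fun m => hdvd _ _ (hfh m) (hfk m) (hfy m)
  refine ⟨fun q hq hqy => ?_, fun m hm => ?_, ?_⟩
  · have h1 : MvPolynomial.map (algebraMap k Ω) q = 0 :=
      zero_of_dvd hg hg0 (hq.map _) (hdvd _ 2 (hq.map _) (fun I => by
        rw [coeff_map]
        exact (coeff I q).2) hqy) (by omega)
    exact map_injective (algebraMap k Ω) (algebraMap k Ω).injective (by rw [h1, map_zero])
  · by_cases h : m = m1
    · exfalso
      rw [h] at hm
      omega
    · exact hz m h
  · set G : Fin 3 → Ω := fun i => eval y (pderiv i (resP P (D.F m1))) with hG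
    have key : ∃ z : Fin 3 → Ω, (∀ r : Ω, z ≠ fun i => r * y i) ∧ ∑ i, z i * G i = 0 := by
      have haux : ∀ z : Fin 3 → Ω, z 0 = 0 → z ≠ 0 → ∀ r : Ω, z ≠ fun i => r * y i := by
        intro z h1 h2 r h3
        have h4 := congrFun h3 0
        simp only [hy0, mul_one] at h4
        apply h2
        rw [h3, ← h4, h1]
        funext i
        simp
      by_cases h : G 1 = 0 ∧ G 2 = 0
      · refine ⟨![0, 1, 0], haux _ rfl (fun h => ?_), ?_⟩
        · exact one_ne_zero (congrFun h 1)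
        · rw [Fin.sum_univ_three, h.1]
          simp
      · refine ⟨![0, G 2, -G 1], haux _ rfl (fun h' => h ?_), ?_⟩
        · have e1 := congrFun h' 1
          have e2 := congrFun h' 2
          simp only [Matrix.cons_val_one, Matrix.cons_val_zero, Pi.zero_apply] at e1
          simp only [Matrix.cons_val, Pi.zero_apply, neg_eq_zero] at e2
          exact ⟨e2, e1⟩
        · rw [Fin.sum_univ_three]
          simp only [Matrix.cons_val_zero, Matrix.cons_val_one, Matrix.cons_val]
          ring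
    obtain ⟨z, hz1, hz2⟩ := key
    refine ⟨z, hz1, fun m => ?_⟩
    by_cases h : m = m1
    · subst h
      exact hz2
    · rw [hz m h]
      simp

end Pool.Agent.Edge.C2.H59
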