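import Pool.Agent.Lib.MP_c7af3c_ag.EDGE.C2.H59.DichAll
import Pool.Agent.Lib.MP_c7af3c_ag.EDGE.C2.H59.Nq
import Pool.Agent.Lib.MP_c7af3c_ag.EDGE.H53.AsmC
import Pool.Agent.Lib.MP_c7af3c_ag.EDGE.H60.Pasc
import Pool.Agent.Lib.MP_c7af3c_ag.EDGE.H46.Main
import Pool.Agent.Lib.MP_c7af3c_ag.EDGE.H54.Edge1

/-!
# MP_c7af3c_ag, project EDGE, all c: the height inequality in the borderline case `n - c = 2 e`
for every number of equations, and the main theorem in the range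
`2 n + 1 <= c + sum d + e`, `2 e + c <= n` (helper59, from ASMC by helper53 and PASC by helper60)
-/

set_option autoImplicit false

namespace Pool.Agent.Edge.C2.H59

open AlgebraicGeometry CategoryTheory CategoryTheory.Limits
open Pool.Agent.Gen Pool.Agent.GenY.H46 Pool.Agent.Sharp Pool.Agent.Sharp.H54
open Pool.Agent.Lines.H46

/-- the height inequality in the borderline case, every multidegree -/
theorem hbeAll (n c e : ℕ) (d : Fin c → ℕ) (j0 : Fin (n + 1)) (he : 1 ≤ e) (hd : ∀ m, 1 ≤ d m)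
    (hs : 2 * n + 1 = c + ∑ m, d m + e) (hn : n = 2 * e + c) : HBE n c d j0 := by
  by_contra hneg
  have ε : (Unit ⊕ (Fin e ⊕ Fin e)) ⊕ Fin c ≃ Fin (n + 1) := by
    refine Fintype.equivOfCardEq ?_
    simp only [Fintype.card_sum, Fintype.card_fin, Fintype.card_unit]
    omega
  obtain ⟨Ω, _, _, k, D, x, hE⟩ := ultraAll H26.tauS H71.sbl n c e d j0 he hd hs hn ε hneg
  obtain ⟨t, P, hP⟩ := Edge.H54.plane Edge.H54.nl H87.plem H9.omegaS Ω k n c e d D x j0 ε he hn hE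
  exact H53.planeFalse H9.omegaS H60.pasc nq Ω k n c e d D x j0 ε t P he hn hd (by omega) hE hP

/-- the numerical condition for the lines inside -/
theorem num_line (n c e : ℕ) (d : Fin c → ℕ) (hd : ∀ m, 1 ≤ d m)
    (hs : 2 * n + 1 = c + ∑ m, d m + e) (hn : n = 2 * e + c) :
    3 * n ≤ c + ∑ m, d m + ∑ m, d m * (d m + 1) / 2 := by
  have h1 := sum_tri2 d hd
  omega

/-- the two height inequalities in the whole range -/
theorem hbBoth (n c e : ℕ) (d : Fin c → ℕ) (hd : ∀ m, 1 ≤ d m)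
    (h1 : 2 * n + 1 ≤ c + ∑ m, d m + e) (h2 : 2 * e + c ≤ n) (h3 : c < n) :
    Edge.H46.HBL (n := n) d ∧ Edge.H46.HBP (n := n) d := by
  by_cases h : 2 * e + 1 + c ≤ n
  · exact ⟨fun i0 j0 => Lines.H19.hbLine2 d hd e h1 h i0 j0,
      fun j0 => Lines.H19.hbPt2 d hd e h1 h j0⟩
  · have hn : n = 2 * e + c := by omega
    have he : 1 ≤ e := by omega
    by_cases hs : 2 * n + 1 = c + ∑ m, d m + e
    · exact ⟨fun i0 j0 => Edge.H54.hbLine3 d (num_line n c e d hd hs hn) i0 j0,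
        Edge.H46.hbPt3 d fun j0 => hbeAll n c e d j0 he hd hs hn⟩
    · exact ⟨fun i0 j0 => Lines.H19.hbLine2 d hd (e - 1) (by omega) (by omega) i0 j0,
        fun j0 => Lines.H19.hbPt2 d hd (e - 1) (by omega) (by omega) j0⟩

section

attribute [local instance] MvPolynomial.gradedAlgebra

/-- Main theorem in the range `2 n + 1 ≤ c + sum d + e`, `2 e + c ≤ n`, `c < n`. -/
theorem mainClosedAll (k : Type) [Field k] [IsAlgClosed k] [CharZero k]
    (n c : ℕ) (d : Fin c → ℕ) (F : Fin c → MvPolynomial (Fin (n + 1)) k)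
    (hF : ∀ m, (F m).IsHomogeneous (d m))
    (ha : AlgebraicIndependent ℤ (fun s : Ix (M := n) d => MvPolynomial.coeff s.1.2 (F s.1.1)))
    (hd : ∀ m, 1 ≤ d m) (e : ℕ) (h1 : 2 * n + 1 ≤ c + ∑ m, d m + e)
    (h2 : 2 * e + c ≤ n) (h3 : c < n)
    (Y : Over (Spec (CommRingCat.of k))) (i : Y.left ⟶ Ell.PP k n) (hi : IsClosedImmersion i)
    (hiY : i ≫ projStr k n = Y.hom)
    (hFY : ∀ m, ∀ y : Y.left, F m ∈ (i.base y).asHomogeneousIdeal) :
    (IsGL k Y ↔ IsAH k Y) ∧ (IsGL k Y ↔ ¬ HasLine i) ∧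
    (2 * n ≤ c + ∑ m, d m + 1 → ¬ HasLine i) ∧
    (IsGL k Y → ∀ (X : Over (Spec (CommRingCat.of k))) (f : X ⟶ Y),
      LocallyOfFiniteType X.hom → QuasiCompact X.hom →
      (∀ y : Spec (CommRingCat.of k) ⟶ Y.left,
        {x : Spec (CommRingCat.of k) ⟶ X.left | x ≫ X.hom = 𝟙 _ ∧ x ≫ f.left = y}.Finite) →
      IsGL k X ∧ IsAH k X) := by
  obtain ⟨hl, hp⟩ := hbBoth n c e d hd h1 h2 h3
  exact Edge.H46.mainClosed3 k n c d F hF ha hl hp Y i hi hiY hFY

end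

end Pool.Agent.Edge.C2.H59
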