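import Pool.Agent.Lib.MP_c7af3c_ag.EDGE.C2.H59.SymMul

/-!
# MP_c7af3c_ag, project EDGE, tuples: the height inequality of a line, refined (helper59)
The extra rows of the determinant cost the sum of the largest weights.
-/

set_option autoImplicit false
set_option linter.unusedSectionVars false

namespace Pool.Agent.Edge.C2.H59

open MvPolynomial WithZero Matrix Pool.Agent.Gen Pool.Agent.Sharp Pool.Agent.Lines
open Pool.Agent.Lines.H26

section

variable {L : Type} [Field L] {n c : ℕ} {d : Fin c → ℕ} (D : DSys L n c d)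
  (z : Fin 2 → Fin (n + 1) → L)

/-- the block matrix of a change of the two forms -/
noncomputable def BM (d : Fin c → ℕ) (α β γ δ : L) : Matrix (Mi d) (Mi d) L :=
  Matrix.blockDiagonal' fun m => symM (d m) α β γ δ

theorem BM_mul (α β γ δ u v s t : L) : BM d α β γ δ * BM d u v s t =
    BM d (u * α + v * γ) (u * β + v * δ) (s * α + t * γ) (s * β + t * δ) := by
  unfold BM
  rw [← Matrix.blockDiagonal'_mul]
  congr 1
  funext m
  exact symM_mul _ _ _ _ _ _ _ _ _

theorem BM_det (α β γ δ : L) (h : α * δ - β * γ = 1) : (BM d α β γ δ).det = 1 := by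
  unfold BM
  rw [H54.det_blockDiag]
  refine Finset.prod_eq_one fun m _ => ?_
  rw [symM_det, h, one_pow]

theorem BM_le (v : Valuation L ℤᵐ⁰) {α β γ δ : L} {b b' : ℤᵐ⁰} (hα : v α ≤ b) (hβ : v β ≤ b)
    (hγ : v γ ≤ b') (hδ : v δ ≤ b') (q' q : Mi d) :
    v (BM d α β γ δ q' q) ≤ b ^ (q.2 : ℕ) * b' ^ (d q.1 - q.2) := by
  obtain ⟨m', a'⟩ := q'
  obtain ⟨m, a⟩ := q
  unfold BM
  by_cases h : m' = m
  · subst h
    rw [Matrix.blockDiagonal'_apply_eq]
    exact symM_le2 v (d m') hα hβ hγ hδ a' a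
  · rw [Matrix.blockDiagonal'_apply_ne _ _ _ h, map_zero]
    exact zero_le

theorem BM_le1 (v : Valuation L ℤᵐ⁰) {α β γ δ : L} (hα : v α ≤ 1) (hβ : v β ≤ 1)
    (hγ : v γ ≤ 1) (hδ : v δ ≤ 1) (q' q : Mi d) : v (BM d α β γ δ q' q) ≤ 1 := by
  have := BM_le v hα hβ hγ hδ q' q
  rwa [one_pow, one_pow, one_mul] at this

/-- a unimodular change which makes the entries small -/
theorem exists_U (v : Valuation L ℤᵐ⁰) (α β γ δ : L) {R : ℤᵐ⁰} (hR : 1 ≤ R)
    (hα : v α ≤ R) (hβ : v β ≤ R) (hγ : v γ ≤ R) (hδ : v δ ≤ R) (hdet : v (α * δ - β * γ) = R) :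
    ∃ (U : Matrix (Mi d) (Mi d) L) (s t : ℤᵐ⁰) (fl : Bool), U.det = 1 ∧ (∀ q' q, v (U q' q) ≤ 1) ∧
      s * t = R ∧ 1 ≤ s ∧ s ≤ R ∧ R ≤ s * s ∧
      ∀ q' q, v ((BM d α β γ δ * U) q' q) ≤
        if fl then s ^ (q.2 : ℕ) * t ^ (d q.1 - q.2) else t ^ (q.2 : ℕ) * s ^ (d q.1 - q.2) := by
  have hR0 : (0 : ℤᵐ⁰) < R := lt_of_lt_of_le zero_lt_one hR
  -- the largest entry
  have key : ∀ (p : L), v p ≤ R → v α ≤ v p → v β ≤ v p → v γ ≤ v p → v δ ≤ v p →
      p ≠ 0 ∧ 1 ≤ v p ∧ R ≤ v p * v p ∧ v p * (v ((α * δ - β * γ) / p)) = R := by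
    intro p hp h1 h2 h3 h4
    have h5 : R ≤ v p * v p := by
      rw [← hdet]
      refine (v.map_sub _ _).trans (max_le ?_ ?_)
      · rw [map_mul]; exact mul_le_mul' h1 h4
      · rw [map_mul]; exact mul_le_mul' h2 h3
    have hp0 : p ≠ 0 := by
      rintro rfl
      rw [map_zero, mul_zero] at h5
      exact absurd hR0 (not_lt.2 h5)
    have hvp : v p ≠ 0 := (map_ne_zero _).2 hp0
    refine ⟨hp0, ?_, h5, ?_⟩
    · by_contra hlt
      push Not at hlt
      have h6 : v p * v p ≤ 1 * 1 := mul_le_mul' hlt.le hlt.le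
      have h7 : v p * v p < 1 := by
        calc v p * v p ≤ v p * 1 := mul_le_mul' le_rfl hlt.le
          _ = v p := mul_one _
          _ < 1 := hlt
      exact absurd (hR.trans h5) (not_le.2 h7)
    · rw [map_div₀, hdet, mul_div_cancel₀ _ hvp]
  have hdiv : ∀ a p : L, v a ≤ v p → v (a / p) ≤ 1 := by
    intro a p h
    rw [map_div₀]
    exact div_le_one_of_le₀ h zero_le
  by_cases c1 : v β ≤ v α ∧ v γ ≤ v α ∧ v δ ≤ v α
  · obtain ⟨h1, h2, h3, h4⟩ := key α hα le_rfl c1.1 c1.2.1 c1.2.2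
    refine ⟨BM d 1 0 (-(γ / α)) 1, v α, v ((α * δ - β * γ) / α), true, BM_det _ _ _ _ (by ring),
      BM_le1 v (by simp) (by simp) (by rw [Valuation.map_neg]; exact hdiv _ _ c1.2.1) (by simp),
      h4, h2, hα, h3, fun q' q => ?_⟩
    rw [BM_mul, if_pos rfl]
    refine BM_le v ?_ ?_ ?_ ?_ q' q
    · rw [one_mul, zero_mul, add_zero]
    · rw [one_mul, zero_mul, add_zero]; exact c1.1
    · rw [one_mul, neg_mul, div_mul_cancel₀ _ h1, neg_add_cancel, map_zero]; exact zero_le
    · have e : -(γ / α) * β + 1 * δ = (α * δ - β * γ) / α := by field_simp; ring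
      rw [e]
  by_cases c2 : v α ≤ v β ∧ v γ ≤ v β ∧ v δ ≤ v β
  · obtain ⟨h1, h2, h3, h4⟩ := key β hβ c2.1 le_rfl c2.2.1 c2.2.2
    refine ⟨BM d 1 0 (-(δ / β)) 1, v β, v ((α * δ - β * γ) / β), true, BM_det _ _ _ _ (by ring),
      BM_le1 v (by simp) (by simp) (by rw [Valuation.map_neg]; exact hdiv _ _ c2.2.2) (by simp),
      h4, h2, hβ, h3, fun q' q => ?_⟩
    rw [BM_mul, if_pos rfl]
    refine BM_le v ?_ ?_ ?_ ?_ q' q
    · rw [one_mul, zero_mul, add_zero]; exact c2.1
    · rw [one_mul, zero_mul, add_zero]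
    · have e : -(δ / β) * α + 1 * γ = -((α * δ - β * γ) / β) := by field_simp; ring
      rw [e, Valuation.map_neg]
    · rw [one_mul, neg_mul, div_mul_cancel₀ _ h1, neg_add_cancel, map_zero]; exact zero_le
  by_cases c3 : v α ≤ v γ ∧ v β ≤ v γ ∧ v δ ≤ v γ
  · obtain ⟨h1, h2, h3, h4⟩ := key γ hγ c3.1 c3.2.1 le_rfl c3.2.2
    refine ⟨BM d 1 (-(α / γ)) 0 1, v γ, v ((α * δ - β * γ) / γ), false, BM_det _ _ _ _ (by ring),
      BM_le1 v (by simp) (by rw [Valuation.map_neg]; exact hdiv _ _ c3.1) (by simp) (by simp),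
      h4, h2, hγ, h3, fun q' q => ?_⟩
    rw [BM_mul, if_neg (by simp)]
    refine BM_le v ?_ ?_ ?_ ?_ q' q
    · rw [one_mul, neg_mul, div_mul_cancel₀ _ h1, add_neg_cancel, map_zero]; exact zero_le
    · have e : 1 * β + -(α / γ) * δ = -((α * δ - β * γ) / γ) := by field_simp; ring
      rw [e, Valuation.map_neg]
    · rw [one_mul, zero_mul, zero_add]
    · rw [one_mul, zero_mul, zero_add]; exact c3.2.2
  · have c4 : v α ≤ v δ ∧ v β ≤ v δ ∧ v γ ≤ v δ := by
      rcases le_total (v α) (v β) with h1 | h1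
      · rcases le_total (v γ) (v δ) with h2 | h2
        · have h3 : v β ≤ v δ := by
            by_contra h
            push Not at h
            exact c2 ⟨h1, h2.trans h.le, h.le⟩
          exact ⟨h1.trans h3, h3, h2⟩
        · exfalso
          have h3 : v β ≤ v γ := by
            by_contra h
            push Not at h
            exact c2 ⟨h1, h.le, h2.trans h.le⟩
          exact c3 ⟨h1.trans h3, h3, h2⟩
      · rcases le_total (v γ) (v δ) with h2 | h2
        · have h3 : v α ≤ v δ := by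
            by_contra h
            push Not at h
            exact c1 ⟨h1, h2.trans h.le, h.le⟩
          exact ⟨h3, h1.trans h3, h2⟩
        · exfalso
          have h3 : v α ≤ v γ := by
            by_contra h
            push Not at h
            exact c1 ⟨h1, h.le, h2.trans h.le⟩
          exact c3 ⟨h3, h1.trans h3, h2⟩
    obtain ⟨h1, h2, h3, h4⟩ := key δ hδ c4.1 c4.2.1 c4.2.2 le_rfl
    refine ⟨BM d 1 (-(β / δ)) 0 1, v δ, v ((α * δ - β * γ) / δ), false, BM_det _ _ _ _ (by ring),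
      BM_le1 v (by simp) (by rw [Valuation.map_neg]; exact hdiv _ _ c4.2.1) (by simp) (by simp),
      h4, h2, hδ, h3, fun q' q => ?_⟩
    rw [BM_mul, if_neg (by simp)]
    refine BM_le v ?_ ?_ ?_ ?_ q' q
    · have e : 1 * α + -(β / δ) * γ = (α * δ - β * γ) / δ := by field_simp; ring
      rw [e]
    · rw [one_mul, neg_mul, div_mul_cancel₀ _ h1, add_neg_cancel, map_zero]; exact zero_le
    · rw [one_mul, zero_mul, zero_add]; exact c4.2.2
    · rw [one_mul, zero_mul, zero_add]

/-- the determinant after a unimodular change of the monomials -/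
theorem detF_U {K : Type} [Fintype K] [DecidableEq K] {w κ : ℕ}
    (e : Ci d w κ ≃ (Fin 2 × Fin (n + 1)) ⊕ K) (W : Fin w → Fin (n + 1) × Fin (n + 1))
    (G : Fin κ → Fin c → MvPolynomial (Fin (n + 1)) L) (i j : Fin (n + 1)) (lam : Mi d → K → L)
    (U : Matrix (Mi d) (Mi d) L) (hU : U.det = 1) :
    detF e (colZ D z K W G i j lam) =
      detF e (Sum.elim (fun q => Sum.elim (fx z q) 0)
        (Sum.elim (Sum.elim (fun k => Sum.elim (W2 D z (W k)) 0)
          fun k => Sum.elim (V2 D z (G k)) 0)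
          fun q => Sum.elim (∑ q', U q' q • V2 D z (mon d L i j q'))
            fun b => ∑ q', lam q' b * U q' q) : Ci d w κ → (Fin 2 × Fin (n + 1)) ⊕ K → L) := by
  classical
  have h1 : (Matrix.fromBlocks (1 : Matrix (Fin 2 × Fin 2) (Fin 2 × Fin 2) L) 0 0
      (Matrix.fromBlocks (1 : Matrix (Fin w ⊕ Fin κ) (Fin w ⊕ Fin κ) L) 0 0 U)).det = 1 := by
    rw [Matrix.det_fromBlocks_zero₂₁, Matrix.det_fromBlocks_zero₂₁, hU, Matrix.det_one,
      Matrix.det_one, one_mul, one_mul]
  have h2 := detF_chg e (Sum.elim (fun q => Sum.elim (fx z q) 0)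
        (Sum.elim (Sum.elim (fun k => Sum.elim (W2 D z (W k)) 0)
          fun k => Sum.elim (V2 D z (G k)) 0)
          fun q => Sum.elim (∑ q', U q' q • V2 D z (mon d L i j q'))
            fun b => ∑ q', lam q' b * U q' q) : Ci d w κ → (Fin 2 × Fin (n + 1)) ⊕ K → L)
    (colZ D z K W G i j lam) (Matrix.fromBlocks 1 0 0 (Matrix.fromBlocks 1 0 0 U)) ?_
  · rw [h1, mul_one] at h2
    exact h2.symm
  · rintro (q | (k | q))
    · rw [Fintype.sum_sum_type, Fintype.sum_sum_type, Finset.sum_eq_single q]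
      · simp [colZ]
      · intro b _ hb
        simp [Matrix.one_apply_ne hb]
      · intro h; exact absurd (Finset.mem_univ q) h
    · rw [Fintype.sum_sum_type, Fintype.sum_sum_type, Finset.sum_eq_single (f := fun k' =>
        (Matrix.fromBlocks 1 0 0 (Matrix.fromBlocks 1 0 0 U)) (Sum.inr (Sum.inl k'))
          (Sum.inr (Sum.inl k)) • colZ D z K W G i j lam (Sum.inr (Sum.inl k'))) k]
      · rcases k with k | k <;> simp [colZ]
      · intro b _ hb
        simp [Matrix.one_apply_ne hb]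
      · intro h; exact absurd (Finset.mem_univ k) h
    · rw [Fintype.sum_sum_type, Fintype.sum_sum_type]
      simp only [Matrix.fromBlocks_apply₁₂, Matrix.fromBlocks_apply₂₂, Matrix.zero_apply,
        zero_smul, Finset.sum_const_zero, zero_add, colZ, Sum.elim_inr]
      funext ρ
      rw [Finset.sum_apply]
      rcases ρ with ρ | b
      · simp
      · simp only [Sum.elim_inr, Pi.smul_apply, smul_eq_mul]
        exact Finset.sum_congr rfl fun q' _ => mul_comm _ _

/-- module HBL, refined -/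
theorem hbl2 {i0 j0 : Fin (n + 1)} (h00 : plu (z 0) (z 1) i0 j0 ≠ 0)
    (S : PlaceSys L) (hS : S.IsProd) (B : S.V → ℕ) (hB : BD S D B) {w κ : ℕ}
    (W : Fin w → Fin (n + 1) × Fin (n + 1))
    (A : Fin κ → Fin c → MvPolynomial (Fin (n + 1)) L) (hA : ∀ k, Adm d (A k))
    (hA' : ∀ p k m, CB (S.v p) (A k m) 1)
    (h : Fin κ → Fin (n + 1) × Fin (n + 1) × Fin (n + 1)) (S0 : Set (Mi d))
    (hli : LinearIndependent L (Sum.elim
      (colB D z W fun k => mulT (A k) (hT (z 0) (z 1) (h k).1 (h k).2.1 (h k).2.2))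
      fun q : S0 => V2 D z (mon d L i0 j0 q.1)))
    (r : ℕ) (hr : r + S0.ncard = c + ∑ m, d m) (hcard : 4 + w + κ + S0.ncard = 2 * (n + 1))
    (hsp : ∀ G : Fin c → MvPolynomial (Fin (n + 1)) L, (∀ m, (G m).IsHomogeneous (d m)) →
      (∀ m, lineP (G m) (z 0) (z 1) = 0) → V2 D z G ∈ Submodule.span L (Set.range
        (colB D z W fun k => mulT (A k) (hT (z 0) (z 1) (h k).1 (h k).2.1 (h k).2.2))))
    (wt : ℕ) (hwt : ∀ T : Finset (Mi d), T.card = r →
      ∑ q ∈ T, (q.2 : ℕ) ≤ wt ∧ ∑ q ∈ T, (d q.1 - q.2) ≤ wt) :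
    ((∑ m, d m * (d m + 1) / 2 : ℕ) : ℤ) * hL S (z 0) (z 1) ≤
      (2 * w + κ + (c + ∑ m, d m) : ℕ) * tot S B +
        (n + 1 + κ + wt : ℕ) * hL S (z 0) (z 1) := by
  classical
  set G : Fin κ → Fin c → MvPolynomial (Fin (n + 1)) L :=
    fun k => mulT (A k) (hT (z 0) (z 1) (h k).1 (h k).2.1 (h k).2.2) with hG
  -- the square matrix
  have hMi : Fintype.card (Mi d) = c + ∑ m, d m := by
    rw [Fintype.card_sigma]
    simp only [Fintype.card_fin, Finset.sum_add_distrib, Finset.sum_const, Finset.card_univ,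
      smul_eq_mul, mul_one]
    omega
  have hK : Fintype.card {q : Mi d // q ∉ S0} = r := by
    have h1 : Fintype.card {q : Mi d // q ∉ S0} = Fintype.card (Mi d) -
        Fintype.card {q : Mi d // q ∈ S0} := Fintype.card_subtype_compl _
    have h2 : Fintype.card {q : Mi d // q ∈ S0} = S0.ncard := by
      rw [← Nat.card_eq_fintype_card]
      rfl
    rw [h1, h2, hMi]
    omega
  have e : Ci d w κ ≃ (Fin 2 × Fin (n + 1)) ⊕ {q : Mi d // q ∉ S0} := by
    refine Fintype.equivOfCardEq ?_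
    rw [Fintype.card_sum, Fintype.card_sum, Fintype.card_sum, Fintype.card_sum, hK, hMi,
      Fintype.card_prod, Fintype.card_prod]
    simp only [Fintype.card_fin]
    omega
  set μ := detF e (colZ D z {q // q ∉ S0} W G i0 j0
      fun q b => (Pi.single q 1 : Mi d → L) b.1) with hμdef
  have hμ : μ ≠ 0 := detF_ne_zero e _ (li_col D z W G i0 j0 S0 hli)
  set Δ := ∑ m, d m * (d m + 1) / 2 with hΔ
  -- the local inequality
  have hloc : ∀ p, S.v p μ * mxP S (z 0) (z 1) p ^ Δ * S.v p (plu (z 0) (z 1) i0 j0) ^ (1 * wt) ≤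
      exp (B p : ℤ) ^ (2 * w + κ + (c + ∑ m, d m)) *
        mxP S (z 0) (z 1) p ^ (n + 1 + κ + 1 * wt) * S.v p (plu (z 0) (z 1) i0 j0) ^ Δ := by
    intro p
    obtain ⟨i, j, hij⟩ := exists_mxP S (z 0) (z 1) p
    have hq0 : mxP S (z 0) (z 1) p ≠ 0 := mxP_ne_zero S (z 0) (z 1) h00 p
    have hpl : plu (z 0) (z 1) i j ≠ 0 := fun h => hq0 (by rw [← hij, h, map_zero])
    have hle : ∀ i' j', S.v p (plu (z 0) (z 1) i' j') ≤ mxP S (z 0) (z 1) p :=
      le_mxP S (z 0) (z 1) p
    set Q := mxP S (z 0) (z 1) p with hQ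
    set P0 := S.v p (plu (z 0) (z 1) i0 j0) with hP0
    have hP00 : P0 ≠ 0 := (map_ne_zero _).2 h00
    have hP0Q : P0 ≤ Q := hle i0 j0
    set M : ℤᵐ⁰ := exp (B p : ℤ) with hMdef
    have hM : 1 ≤ M := by
      rw [hMdef, ← exp_zero]
      exact WithZero.exp_le_exp.2 (by positivity)
    have hdel : ∀ m I, I.degree = d m → ∀ f, S.v p f ≤ 1 → S.v p (D.del m I f) ≤ M :=
      fun m I hI f hf => hB.del p m I hI f hf
    have hF : ∀ m, CB (S.v p) (D.F m) M := fun m I => hB.F p m I
    -- the frame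
    have hzf : ∀ a r, S.v p (zf z i j a r) ≤ 1 := by
      intro a r
      unfold zf
      split_ifs
      · rw [map_div₀, hij]
        exact div_le_one_of_le₀ (hle _ _) zero_le
      · rw [map_div₀, hij]
        exact div_le_one_of_le₀ (hle _ _) zero_le
    have hlam : ∀ (q : Mi d) (b : {q : Mi d // q ∉ S0}),
        ∑ q', CM z d i0 j0 i j q' q * (Pi.single q' 1 : Mi d → L) b.1 =
          CM z d i0 j0 i j b.1 q := by
      intro q b
      rw [Finset.sum_eq_single b.1]
      · rw [Pi.single_eq_same, mul_one]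
      · intro b' _ hb'
        rw [Pi.single_eq_of_ne (Ne.symm hb'), mul_zero]
      · intro h; exact absurd (Finset.mem_univ _) h
    have h1 := detF_pair D z W G e i0 j0 i j (fun q b => (Pi.single q 1 : Mi d → L) b.1)
      (CM z d i0 j0 i j) (fun q => by
        rw [← V2_smul_sum D z, ← V2_sub]
        refine hsp _ (fun m => ?_) (fun m => mon_sub z h00 i j q m)
        rw [Pi.sub_apply, Finset.sum_apply]
        refine (hom_mon i j q m).sub ?_
        refine IsHomogeneous.sum _ _ _ fun q' _ => ?_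
        rw [Pi.smul_apply, smul_eq_C_mul]
        have := (isHomogeneous_C (Fin (n + 1)) (CM z d i0 j0 i j q' q)).mul (hom_mon i0 j0 q' m)
        rwa [zero_add] at this)
    rw [det_CM z h00, ← hμdef] at h1
    simp only [hlam] at h1
    have h2 := detF_loc D z (zf z i j) (gf z i j) (zf_eq z hpl) (by rw [det_gf]; exact hpl) e W G
      i j (fun q b => CM z d i0 j0 i j b.1 q)
    rw [h1, det_gf] at h2
    -- the unimodular change
    have hβ : ∀ i' j', S.v p (plu (z 0) (z 1) i' j' / plu (z 0) (z 1) i0 j0) ≤ Q / P0 := by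
      intro i' j'
      rw [map_div₀]
      exact div_le_div_of_nonneg_right (hle _ _) zero_le
    have hβ1 : 1 ≤ Q / P0 := by
      rw [one_le_div₀ (zero_lt_iff.2 hP00)]
      exact hP0Q
    obtain ⟨U, s, t, fl, hU1, hU2, hst, hs1, hsR, hRs, hU3⟩ := exists_U (d := d) (S.v p)
      (plu (z 0) (z 1) i j0 / plu (z 0) (z 1) i0 j0) (plu (z 0) (z 1) i0 i / plu (z 0) (z 1) i0 j0)
      (plu (z 0) (z 1) j j0 / plu (z 0) (z 1) i0 j0) (plu (z 0) (z 1) i0 j / plu (z 0) (z 1) i0 j0)
      hβ1 (hβ _ _) (hβ _ _) (hβ _ _) (hβ _ _) (by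
        have e1 : plu (z 0) (z 1) i j0 / plu (z 0) (z 1) i0 j0 *
            (plu (z 0) (z 1) i0 j / plu (z 0) (z 1) i0 j0) -
            plu (z 0) (z 1) i0 i / plu (z 0) (z 1) i0 j0 *
            (plu (z 0) (z 1) j j0 / plu (z 0) (z 1) i0 j0) =
            plu (z 0) (z 1) i j / plu (z 0) (z 1) i0 j0 := by
          field_simp
          unfold plu
          ring
        rw [e1, map_div₀, hij])
    have hCM : BM d
      (plu (z 0) (z 1) i j0 / plu (z 0) (z 1) i0 j0) (plu (z 0) (z 1) i0 i / plu (z 0) (z 1) i0 j0)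
      (plu (z 0) (z 1) j j0 / plu (z 0) (z 1) i0 j0)
      (plu (z 0) (z 1) i0 j / plu (z 0) (z 1) i0 j0) = CM z d i0 j0 i j := rfl
    rw [hCM] at hU3
    rw [detF_U D (zf z i j) e W G i j _ U hU1] at h2
    -- the bound of the determinant
    set col : Ci d w κ → (Fin 2 × Fin (n + 1)) ⊕ {q : Mi d // q ∉ S0} → L :=
      (Sum.elim (fun q => Sum.elim (fx (zf z i j) q) 0)
        (Sum.elim (Sum.elim (fun k => Sum.elim (W2 D (zf z i j) (W k)) 0)
          fun k => Sum.elim (V2 D (zf z i j) (G k)) 0)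
          fun q => Sum.elim (∑ q', U q' q • V2 D (zf z i j) (mon d L i j q'))
            fun b => ∑ q', CM z d i0 j0 i j b.1 q' * U q' q)) with hcol
    have h3 := v_detF_le2 (S.v p) e col
      (Sum.elim (fun _ => 1) (Sum.elim (Sum.elim (fun _ => M * M) fun _ => Q * M) fun _ => M))
      ((Q / P0) ^ wt) ?_ ?_
    · simp only [Fintype.prod_sum_type, Sum.elim_inl, Sum.elim_inr, Finset.prod_const_one,
        Finset.prod_const, Finset.card_univ, Fintype.card_fin, one_mul] at h3
      rw [hMi] at h3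
      have h4 := congrArg (S.v p) h2
      rw [map_mul, map_mul, map_pow, map_pow, map_div₀, hij, ← hP0] at h4
      have h5 : S.v p μ * (Q / P0) ^ Δ ≤ Q ^ (n + 1) *
          (((Q / P0) ^ wt) ^ 1 * ((M * M) ^ w * (Q * M) ^ κ * M ^ (c + ∑ m, d m))) := by
        rw [h4, pow_one]
        exact mul_le_mul' le_rfl h3
      exact local_aux _ _ _ _ hP00 _ _ _ _ _ _ _ h5
    · rintro (q | ((k | k) | q)) ρ
      · simp only [hcol, Sum.elim_inl]
        unfold fx
        split_ifs
        · exact hzf _ _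
        · rw [map_zero]; exact zero_le
      · simp only [hcol, Sum.elim_inl, Sum.elim_inr]
        exact W2_bound D _ hM hdel hF hzf (W k) ρ
      · simp only [hcol, Sum.elim_inl, Sum.elim_inr]
        refine V2_bound D _ hdel hzf (G k) (fun m => ?_) (fun m => ?_) ρ
        · rw [hG]
          exact deg_mulT (hA k) (hom_hT _ _ _ _ _) m
        · rw [hG]
          have := (hA' p k m).mul _ (CB_hT (z 0) (z 1) S p (h k).1 (h k).2.1 (h k).2.2)
          rw [one_mul] at this
          exact this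
      · simp only [hcol, Sum.elim_inl, Sum.elim_inr]
        rw [Finset.sum_apply]
        refine (S.v p).map_sum_le fun q' _ => ?_
        rw [Pi.smul_apply, smul_eq_mul, map_mul]
        have := V2_bound D (zf z i j) hdel hzf (mon d L i j q')
          (fun m => deg_of_hom (hom_mon i j q' m)) (fun m => CB_mon i j q' m) ρ
        rw [one_mul] at this
        calc S.v p (U q' q) * S.v p (V2 D (zf z i j) (mon d L i j q') ρ) ≤ 1 * M :=
              mul_le_mul' (hU2 _ _) this
          _ = M := one_mul M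
    · intro f hf
      by_cases hall : ∀ b, ∃ q, f b = Sum.inr (Sum.inr q)
      · choose g hg using hall
        have hginj : Function.Injective g := fun b b' hbb => hf (by rw [hg, hg, hbb])
        have e1 : ∀ b : {q : Mi d // q ∉ S0}, col (f b) (Sum.inr b) =
            (CM z d i0 j0 i j * U) b.1 (g b) := by
          intro b
          rw [hg b, Matrix.mul_apply]
          rfl
        have e2 : ∏ b : {q : Mi d // q ∉ S0}, (Sum.elim (fun _ => 1)
            (Sum.elim (Sum.elim (fun _ => M * M) fun _ => Q * M) fun _ => M) :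
            Ci d w κ → ℤᵐ⁰) (f b) = M ^ r := by
          simp only [hg, Sum.elim_inr, Finset.prod_const, Finset.card_univ]
          rw [hK]
        rw [e2]
        simp only [e1]
        have hT := hwt (Finset.univ.map ⟨g, hginj⟩) (by rw [Finset.card_map, Finset.card_univ, hK])
        simp only [Finset.sum_map, Function.Embedding.coeFn_mk] at hT
        have h6 : ∏ b : {q : Mi d // q ∉ S0}, S.v p ((CM z d i0 j0 i j * U) b.1 (g b)) ≤
            (Q / P0) ^ wt := by
          refine (Finset.prod_le_prod' fun b _ => hU3 b.1 (g b)).trans ?_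
          cases fl
          · simp only [Bool.false_eq_true, if_false, Finset.prod_mul_distrib,
              Finset.prod_pow_eq_pow_sum]
            rw [mul_comm]
            exact pw_le hst hs1 hsR hT.2 hT.1
          · simp only [if_true, Finset.prod_mul_distrib, Finset.prod_pow_eq_pow_sum]
            exact pw_le hst hs1 hsR hT.1 hT.2
        calc _ ≤ (Q / P0) ^ wt := h6
          _ = (Q / P0) ^ wt * 1 := (mul_one _).symm
          _ ≤ _ := mul_le_mul' le_rfl (one_le_pow₀ hM)
      · push Not at hall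
        obtain ⟨b, hb⟩ := hall
        have e1 : col (f b) (Sum.inr b) = 0 := by
          rcases hfb : f b with q | ((k | k) | q)
          · rfl
          · rfl
          · rfl
          · exact absurd hfb (hb q)
        rw [Finset.prod_eq_zero (Finset.mem_univ b) (by rw [e1, map_zero])]
        exact zero_le
  have hfin := glob_q S (z 0) (z 1) hS h00 B hB.fin μ hμ Δ _ _ _ _ hloc
  rwa [one_mul] at hfin

end

end Pool.Agent.Edge.C2.H59
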