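import Pool.Agent.Lib.MP_c7af3c_ag.EDGE.C2.Iface
import Mathlib.FieldTheory.PrimitiveElement
import Mathlib.RingTheory.Polynomial.GaussLemma

/-!
# MP_c7af3c_ag, project EDGE, tuples: linear disjointness (helper59)
-/

set_option autoImplicit false

namespace Pool.Agent.Edge.C2.H59

open Polynomial IntermediateField

section

variable {F Ω Ω' : Type} [Field F] [Field Ω] [Field Ω'] [CharZero F] [Algebra F Ω] [Algebra Ω Ω']
  [Algebra F Ω'] [IsScalarTower F Ω Ω']

/-- the minimal polynomial does not drop -/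
theorem natDegree_minpoly (hk : ∀ z : Ω, IsAlgebraic F z → z ∈ (algebraMap F Ω).range)
    {α : Ω'} (hα : IsIntegral F α) : (minpoly F α).natDegree ≤ (minpoly Ω α).natDegree := by
  have hα' : IsIntegral Ω α := hα.tower_top
  have h1 : minpoly Ω α ∣ (minpoly F α).map (algebraMap F Ω) :=
    minpoly.dvd_map_of_isScalarTower F Ω α
  have h2 := integralClosure.mem_lifts_of_monic_of_dvd_map Ω (minpoly.monic hα)
    (minpoly.monic hα') h1
  rw [lifts_iff_coeff_lifts] at h2
  have h3 : minpoly Ω α ∈ lifts (algebraMap F Ω) := by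
    rw [lifts_iff_coeff_lifts]
    intro i
    obtain ⟨z, hz⟩ := h2 i
    rw [← hz]
    exact hk _ z.2.isAlgebraic
  obtain ⟨g, hg, hgd, hgm⟩ := lifts_and_natDegree_eq_and_monic h3 (minpoly.monic hα')
  rw [← hgd]
  refine natDegree_le_of_dvd (minpoly.dvd F α ?_) hgm.ne_zero
  have h4 : aeval α (g.map (algebraMap F Ω)) = 0 := by rw [hg]; exact minpoly.aeval Ω α
  rwa [aeval_map_algebraMap] at h4

/-- independent elements stay independent -/
theorem ld_aux (hk : ∀ z : Ω, IsAlgebraic F z → z ∈ (algebraMap F Ω).range) {N : ℕ}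
    (y : Fin N → Ω) (hy : ∀ a : Fin N → F, ∑ i, algebraMap F Ω (a i) * y i = 0 → a = 0)
    (a : Fin N → Ω') (ha : ∀ i, IsAlgebraic F (a i))
    (h0 : ∑ i, a i * algebraMap Ω Ω' (y i) = 0) : a = 0 := by
  classical
  set E := IntermediateField.adjoin F (Set.range a) with hE
  have hfd : FiniteDimensional F E := by
    refine finiteDimensional_adjoin ?_
    rintro _ ⟨i, rfl⟩
    exact (ha i).isIntegral
  obtain ⟨α, hα⟩ := Field.exists_primitive_element F E
  have hαi : IsIntegral F α := Algebra.IsIntegral.isIntegral α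
  have hαi' : IsIntegral F (α : Ω') := hαi.map (E.val)
  set m := (minpoly F (α : Ω')).natDegree with hm
  have hmon := minpoly.monic hαi'
  have hm0 : 0 < m := minpoly.natDegree_pos hαi'
  -- the elements are polynomials in `α`
  have hp : ∀ i, ∃ p : F[X], p.natDegree < m ∧ aeval (α : Ω') p = a i := by
    intro i
    have h1 : (⟨a i, subset_adjoin F _ ⟨i, rfl⟩⟩ : E) ∈ F⟮α⟯ := by
      rw [hα]; exact mem_top
    rw [← IntermediateField.mem_toSubalgebra,
      IntermediateField.adjoin_simple_toSubalgebra_of_isAlgebraic hαi.isAlgebraic,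
      Algebra.adjoin_singleton_eq_range_aeval] at h1
    obtain ⟨p, hp⟩ := h1
    refine ⟨p %ₘ minpoly F (α : Ω'), ?_, ?_⟩
    · refine natDegree_modByMonic_lt p hmon ?_
      intro h
      rw [hm, h, natDegree_one] at hm0
      exact lt_irrefl _ hm0
    · rw [aeval_modByMonic_eq_self_of_root (minpoly.aeval F (α : Ω'))]
      have h2 := congrArg (E.val) hp
      change E.val (aeval α p) = a i at h2
      rw [← aeval_algHom_apply] at h2
      exact h2
  choose p hp1 hp2 using hp
  have hli := linearIndependent_pow (K := Ω) (α : Ω')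
  rw [Fintype.linearIndependent_iff] at hli
  have hdeg : m ≤ (minpoly Ω (α : Ω')).natDegree := natDegree_minpoly hk hαi'
  have h1 : ∀ j : Fin (minpoly Ω (α : Ω')).natDegree,
      ∑ i, algebraMap F Ω ((p i).coeff j) * y i = 0 := by
    refine hli _ ?_
    rw [← h0]
    simp only [← hp2, Finset.sum_smul]
    rw [Finset.sum_comm]
    refine Finset.sum_congr rfl fun i _ => ?_
    rw [aeval_eq_sum_range' (n := (minpoly Ω (α : Ω')).natDegree) (lt_of_lt_of_le (hp1 i) hdeg),
      Finset.sum_range, Finset.sum_mul]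
    refine Finset.sum_congr rfl fun j _ => ?_
    rw [Algebra.smul_def, map_mul, ← IsScalarTower.algebraMap_apply, Algebra.smul_def]
    ring
  have h2 : ∀ (j : Fin (minpoly Ω (α : Ω')).natDegree) i, (p i).coeff j = 0 := fun j i =>
    congrFun (hy _ (h1 j)) i
  funext i
  rw [← hp2 i]
  have h3 : p i = 0 := by
    ext j
    rw [coeff_zero]
    by_cases hj : j < (minpoly Ω (α : Ω')).natDegree
    · exact h2 ⟨j, hj⟩ i
    · exact coeff_eq_zero_of_natDegree_lt (by have := hp1 i; omega)
  rw [h3, map_zero, Pi.zero_apply]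

end

/-- Module LD. -/
theorem ld : LdStatement := by
  intro Ω _ _ k hk
  have hk' : ∀ z : Ω, IsAlgebraic k z → z ∈ (algebraMap k Ω).range := by
    intro z hz
    obtain ⟨p, hp0, hp⟩ := hz
    refine ⟨⟨z, hk z (p.map (algebraMap k Ω)) ?_ ?_ ?_⟩, rfl⟩
    · exact (Polynomial.map_ne_zero_iff (algebraMap k Ω).injective).2 hp0
    · intro i
      rw [coeff_map]
      exact (p.coeff i).2
    · rw [eval_map_algebraMap]
      exact hp
  refine ⟨(algebraicClosure k (AlgebraicClosure Ω)).toSubfield, ?_, ?_, ?_⟩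
  · exact (inferInstance : IsAlgClosure k (algebraicClosure k (AlgebraicClosure Ω))).isAlgClosed
  · intro z hz
    change _ ∈ algebraicClosure k (AlgebraicClosure Ω)
    rw [mem_algebraicClosure_iff]
    exact isAlgebraic_algebraMap (⟨z, hz⟩ : k)
  · intro N y hy a ha h0
    refine ld_aux (F := k) hk' y (fun b hb => ?_) a (fun i => mem_algebraicClosure_iff.1 (ha i)) h0
    have h1 := hy (fun i => (b i : Ω)) (fun i => (b i).2) hb
    funext i
    exact Subtype.ext (congrFun h1 i)

end Pool.Agent.Edge.C2.H59
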