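import Pool.Agent.Lib.MP_c7af3c_ag.EDGE.C2.Iface
import Pool.Agent.Lib.MP_c7af3c_ag.EDGE.H65.NoFactor

/-!
# MP_c7af3c_ag, project EDGE, tuples: the dimension count (helper59)
-/

set_option autoImplicit false

namespace Pool.Agent.Edge.C2.H59

open MvPolynomial Pool.Agent.Gen Pool.Agent.Edge.H65

theorem two_choose' (T : ℕ) : 2 * (T + 2).choose 2 = (T + 2) * (T + 1) := two_choose T

/-- the points `P i` are independent -/
theorem li_P {Ω : Type} [Field Ω] {n : ℕ} {t : Fin 3 → Fin (n + 1)} {P : Fin 3 → Fin (n + 1) → Ω}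
    (hPt : ∀ i j, P i (t j) = if i = j then 1 else 0) : LinearIndependent Ω P := by
  rw [Fintype.linearIndependent_iff]
  intro a ha j
  have h := congrFun ha (t j)
  rw [Finset.sum_apply] at h
  simpa [hPt] using h

/-- factors of homogeneous polynomials -/
theorem factor_U3 {Ω : Type} [Field Ω] {g f : MvPolynomial (Fin 3) Ω} {δ r : ℕ}
    (hg : g.IsHomogeneous δ) (hg0 : g ≠ 0) (hf : f.IsHomogeneous r) (h : g ∣ f) :
    ∃ G ∈ U3 Ω δ r, f = g * G := by
  classical
  obtain ⟨G, rfl⟩ := h
  by_cases hr : δ ≤ r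
  · refine ⟨homogeneousComponent (r - δ) G, ?_, ?_⟩
    · rw [U3_pos hr]
      exact homogeneousComponent_isHomogeneous _ _
    · have h1 := homogeneousComponent_of_mem hf (m := r)
      rw [if_pos rfl] at h1
      have h2 : ∀ (q : ℕ) (B : MvPolynomial (Fin 3) Ω),
          homogeneousComponent (δ + q) (g * B) = g * homogeneousComponent q B := by
        intro q B
        induction B using MvPolynomial.induction_on' with
        | monomial u a =>
          have h1 : (monomial u a : MvPolynomial (Fin 3) Ω).IsHomogeneous u.degree :=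
            isHomogeneous_monomial a rfl
          rw [homogeneousComponent_of_mem (hg.mul h1), homogeneousComponent_of_mem h1]
          by_cases h : q = u.degree
          · rw [if_pos h, if_pos (by omega)]
          · rw [if_neg h, if_neg (by omega), mul_zero]
        | add p q hp hq => rw [mul_add, map_add, hp, hq, map_add, mul_add]
      have h3 := h2 (r - δ) G
      rw [show δ + (r - δ) = r by omega, h1] at h3
      exact h3
  · refine ⟨0, Submodule.zero_mem _, ?_⟩
    rw [mul_zero]
    by_contra hne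
    apply hr
    have h1 : g.totalDegree = δ := hg.totalDegree hg0
    have h2 : (g * G).totalDegree = r := hf.totalDegree hne
    have hG : G ≠ 0 := fun h => hne (by rw [h, mul_zero])
    have h3 := totalDegree_mul_of_isDomain hg0 hG
    omega

/-- the numerical part -/
theorem num (c e δ : ℕ) (d : Fin c → ℕ) (hd : ∑ m, d m = 3 * e + 1 + c) (hδ : 2 ≤ δ)
    (h : ∑ m, (d m + 2).choose 2 + 10 ≤ (δ + 2).choose 2 +
      ∑ m, (if δ ≤ d m then (d m - δ + 2).choose 2 else 0) + 3 * (2 * e + c + 1)) :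
    ∑ m, (if δ ≤ d m then (δ - 2) * (δ + 1) else 0) + 18 ≤ (δ + 2) * (δ + 1) := by
  have h2 := two_choose δ
  have key : ∀ m, (if δ ≤ d m then (δ - 2) * (δ + 1) else 0) +
      2 * (if δ ≤ d m then (d m - δ + 2).choose 2 else 0) + 2 * (2 * d m + 1) ≤
      2 * (d m + 2).choose 2 := by
    intro m
    have h3 := two_choose (d m)
    rw [h3]
    by_cases hm : δ ≤ d m
    · rw [if_pos hm, if_pos hm, two_choose]
      obtain ⟨a, ha⟩ := Nat.exists_eq_add_of_le hm
      obtain ⟨b, hb⟩ := Nat.exists_eq_add_of_le hδ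
      rw [ha, show δ + a - δ = a by omega, hb, show 2 + b - 2 = b by omega]
      nlinarith
    · rw [if_neg hm, if_neg hm]
      nlinarith [Nat.le_mul_self (d m)]
  have h4 := Finset.sum_le_sum fun m (_ : m ∈ Finset.univ) => key m
  simp only [Finset.sum_add_distrib, ← Finset.mul_sum] at h4
  rw [Finset.sum_const, Finset.card_univ, Fintype.card_fin, smul_eq_mul, mul_one, hd] at h4
  omega

/-- Module NOFC. -/
theorem nofc : NofcStatement := by
  intro Ω _ _ n c e d D t P he hn hd ht hPt g δ hg hg0 hδ hdvd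
  classical
  have hP := li_P hPt
  -- the count for any common factor
  have count : ∀ (g : MvPolynomial (Fin 3) Ω) (δ : ℕ), g.IsHomogeneous δ → g ≠ 0 → 2 ≤ δ →
      (∀ m, g ∣ resP P (D.F m)) →
      ∑ m, (if δ ≤ d m then (δ - 2) * (δ + 1) else 0) + 18 ≤ (δ + 2) * (δ + 1) := by
    intro g δ hg hg0 hδ hdvd
    have hh : ∀ m, ∃ G ∈ U3 Ω δ (d m), resP P (D.F m) = g * G := fun m =>
      factor_U3 hg hg0 (ssub_hom P (D.hom m)) (hdvd m)
    choose G hG1 hG2 using hh
    have h1 := nofactor_gen D P hP δ g hg (by omega) hg0 G hG1 hG2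
    subst hn
    exact num c e δ d hd hδ h1
  -- not all restrictions vanish
  have hne : ∃ m, resP P (D.F m) ≠ 0 := by
    by_contra hcon
    push Not at hcon
    have h1 := count (X 0 ^ 2) 2 (isHomogeneous_X_pow 0 2) (pow_ne_zero _ (X_ne_zero _)) le_rfl
      (fun m => by rw [hcon m]; exact dvd_zero _)
    omega
  have h1 := count g δ hg hg0 hδ hdvd
  have hlt : ∀ m, resP P (D.F m) ≠ 0 → δ ≤ d m := by
    intro m hm
    obtain ⟨G, hG⟩ := hdvd m
    have hG0 : G ≠ 0 := fun h => hm (by rw [hG, h, mul_zero])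
    have h2 : (resP P (D.F m)).totalDegree = d m := (ssub_hom P (D.hom m)).totalDegree hm
    have h3 : g.totalDegree = δ := hg.totalDegree hg0
    rw [hG, totalDegree_mul_of_isDomain hg0 hG0] at h2
    omega
  obtain ⟨m1, hm1⟩ := hne
  have hm1' := hlt m1 hm1
  have h2 : (δ - 2) * (δ + 1) ≤ ∑ m, (if δ ≤ d m then (δ - 2) * (δ + 1) else 0) := by
    refine le_trans ?_ (Finset.single_le_sum (fun i _ => Nat.zero_le _) (Finset.mem_univ m1))
    rw [if_pos hm1']
  refine ⟨?_, m1, hm1', fun m hm => ?_⟩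
  · by_contra h4
    have h5 : δ = 2 ∨ δ = 3 := by omega
    rcases h5 with rfl | rfl
    · omega
    · omega
  · by_contra hne
    have hm' := hlt m hne
    have h5 : 2 * ((δ - 2) * (δ + 1)) ≤ ∑ m, (if δ ≤ d m then (δ - 2) * (δ + 1) else 0) := by
      have h6 := Finset.sum_le_sum_of_subset (f := fun m => if δ ≤ d m then (δ - 2) * (δ + 1) else 0)
        (Finset.subset_univ {m, m1})
      rw [Finset.sum_pair hm, if_pos hm', if_pos hm1'] at h6
      omega
    obtain ⟨b, rfl⟩ := Nat.exists_eq_add_of_le hδ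
    simp only [show 2 + b - 2 = b by omega] at h1 h5
    have h7 : 2 * (b * (2 + b + 1)) + 18 ≤ (2 + b + 2) * (2 + b + 1) := le_trans (by omega) h1
    nlinarith [Nat.le_mul_self b]

end Pool.Agent.Edge.C2.H59
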