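import Pool.Agent.Lib.MP_c7af3c_ag.LINES.H26.Hbl

/-!
# MP_c7af3c_ag, project EDGE, tuples: products of symmetric powers, refined bounds (helper59)
-/

set_option autoImplicit false

namespace Pool.Agent.Edge.C2.H59

open Polynomial Pool.Agent.Lines WithZero

section
variable {L : Type*} [Field L]

theorem symM_coeff (d : ℕ) (α β γ δ : L) (a' a : Fin (d + 1)) :
    symM d α β γ δ a' a = ((C α * X + C β) ^ (a : ℕ) * (C γ * X + C δ) ^ (d - a)).coeff a' := rfl

/-- the symmetric power is multiplicative -/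
theorem symM_mul (d : ℕ) (α β γ δ u v s t : L) :
    symM d α β γ δ * symM d u v s t =
      symM d (u * α + v * γ) (u * β + v * δ) (s * α + t * γ) (s * β + t * δ) := by
  ext a'' a
  have h1 := symM_id (C α * X + C β : L[X]) (C γ * X + C δ) d u v s t a
  have e1 : u • (C α * X + C β : L[X]) + v • (C γ * X + C δ) =
      C (u * α + v * γ) * X + C (u * β + v * δ) := by
    simp only [smul_eq_C_mul, map_add, map_mul]
    ring
  have e2 : s • (C α * X + C β : L[X]) + t • (C γ * X + C δ) =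
      C (s * α + t * γ) * X + C (s * β + t * δ) := by
    simp only [smul_eq_C_mul, map_add, map_mul]
    ring
  rw [e1, e2] at h1
  rw [symM_coeff, h1, Matrix.mul_apply, finset_sum_coeff]
  refine Finset.sum_congr rfl fun a' _ => ?_
  rw [coeff_smul, smul_eq_mul, symM_coeff d α β γ δ a'' a', mul_comm]

/-- bound of the entries, two sizes -/
theorem symM_le2 {Γ : Type*} [LinearOrderedCommGroupWithZero Γ] (v : Valuation L Γ) (d : ℕ)
    {α β γ δ : L} {b b' : Γ} (hα : v α ≤ b) (hβ : v β ≤ b)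
    (hγ : v γ ≤ b') (hδ : v δ ≤ b') (a' a : Fin (d + 1)) :
    v (symM d α β γ δ a' a) ≤ b ^ (a : ℕ) * b' ^ (d - a) := by
  have h1 : ∀ (b : Γ) (α β : L), v α ≤ b → v β ≤ b → ∀ k, v ((C α * X + C β).coeff k) ≤ b := by
    intro b α β hα hβ k
    rw [coeff_add, coeff_C_mul, coeff_X, coeff_C]
    refine (v.map_add _ _).trans (max_le ?_ ?_)
    · split_ifs
      · rwa [mul_one]
      · rw [mul_zero, map_zero]; exact zero_le
    · split_ifs
      · exact hβ
      · rw [map_zero]; exact zero_le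
  rw [symM_coeff]
  exact cb_mul v (cb_pow v (h1 b α β hα hβ) _) (cb_pow v (h1 b' γ δ hγ hδ) _) _

end

/-- powers -/
theorem pw_le {R s t : ℤᵐ⁰} (hst : s * t = R) (h1 : 1 ≤ s) (hs : s ≤ R)
    {A B w : ℕ} (hA : A ≤ w) (hB : B ≤ w) : s ^ A * t ^ B ≤ R ^ w := by
  have hs0 : 0 < s := lt_of_lt_of_le zero_lt_one h1
  have hR1 : 1 ≤ R := h1.trans hs
  have ht1 : t ≤ R := by
    rw [← hst]
    calc t = 1 * t := (one_mul t).symm
      _ ≤ s * t := mul_le_mul' h1 le_rfl
  rcases le_total B A with h | h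
  · obtain ⟨k, rfl⟩ := Nat.exists_eq_add_of_le h
    calc s ^ (B + k) * t ^ B = s ^ k * (s * t) ^ B := by
          rw [pow_add, mul_pow, mul_comm (s ^ B) (s ^ k), mul_assoc]
      _ ≤ R ^ k * R ^ B := by
        rw [hst]
        exact mul_le_mul' (pow_le_pow_left' hs k) le_rfl
      _ = R ^ (B + k) := by rw [add_comm B k, pow_add]
      _ ≤ R ^ w := pow_le_pow_right' hR1 hA
  · obtain ⟨k, rfl⟩ := Nat.exists_eq_add_of_le h
    calc s ^ A * t ^ (A + k) = (s * t) ^ A * t ^ k := by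
          rw [pow_add, mul_pow, ← mul_assoc]
      _ ≤ R ^ A * R ^ k := by
        rw [hst]
        exact mul_le_mul' le_rfl (pow_le_pow_left' ht1 k)
      _ = R ^ (A + k) := by rw [pow_add]
      _ ≤ R ^ w := pow_le_pow_right' hR1 hB

/-- a refined bound of a determinant: the rows of type `K` are treated together -/
theorem v_detF_le2 {L : Type} [Field L] {ι R0 K : Type} [Fintype ι] [DecidableEq ι] [Fintype R0]
    [DecidableEq R0] [Fintype K] [DecidableEq K]
    (v : Valuation L ℤᵐ⁰) (e : ι ≃ R0 ⊕ K) (w : ι → R0 ⊕ K → L) (σ : ι → ℤᵐ⁰) (b : ℤᵐ⁰)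
    (h1 : ∀ k r, v (w k (Sum.inl r)) ≤ σ k)
    (h2 : ∀ f : K → ι, Function.Injective f →
      ∏ q, v (w (f q) (Sum.inr q)) ≤ b * ∏ q, σ (f q)) :
    v (H26.detF e w) ≤ b * ∏ k, σ k := by
  unfold H26.detF
  rw [Matrix.det_apply]
  refine v.map_sum_le fun τ _ => ?_
  have h3 : v (Equiv.Perm.sign τ • ∏ i, (Matrix.of fun a k => w k (e a)) (τ i) i) =
      ∏ i, v ((Matrix.of fun a k => w k (e a)) (τ i) i) := by
    rcases Int.units_eq_one_or (Equiv.Perm.sign τ) with h | h
    · rw [h, one_smul, map_prod]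
    · rw [h, Units.neg_smul, one_smul, Valuation.map_neg, map_prod]
  rw [h3]
  set π : ι ≃ R0 ⊕ K := τ.trans e with hπ
  have h4 : ∏ i, v ((Matrix.of fun a k => w k (e a)) (τ i) i) =
      (∏ r, v (w (π.symm (Sum.inl r)) (Sum.inl r))) *
        ∏ q, v (w (π.symm (Sum.inr q)) (Sum.inr q)) := by
    rw [← Fintype.prod_sum_type (fun r => v (w (π.symm r) r)), ← π.prod_comp]
    refine Finset.prod_congr rfl fun i _ => ?_
    rw [Equiv.symm_apply_apply, Matrix.of_apply]
    rfl
  have h5 : ∏ k, σ k = (∏ r, σ (π.symm (Sum.inl r))) * ∏ q, σ (π.symm (Sum.inr q)) := by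
    rw [← Fintype.prod_sum_type (fun r => σ (π.symm r)), ← π.prod_comp]
    exact Finset.prod_congr rfl fun i _ => by rw [Equiv.symm_apply_apply]
  rw [h4, h5, mul_left_comm]
  have h6 := h2 (fun q => π.symm (Sum.inr q)) fun q q' h =>
    Sum.inr_injective (π.symm.injective h)
  exact mul_le_mul' (Finset.prod_le_prod' fun r _ => h1 _ _) h6

end Pool.Agent.Edge.C2.H59
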